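import Pool.Agent.U762.EE.Stm

/-!
Project EE, package EXPt (helper8).
-/

set_option autoImplicit false

namespace Pool.Agent.U8.EE

open Finset MeasureTheory Filter Pool.Agent.U762.RP Pool.Agent.U762.EE
open scoped Topology

lemma half_add {θ : ℝ} (h0 : 0 < θ) (h1 : θ < 1) : (1 / 2 : ℝ) ^ θ + (3 / 2 : ℝ) ^ θ < 2 := by
  have m1 : (1 / 2 : ℝ) ∈ Set.Ici (0 : ℝ) := by norm_num
  have m2 : (3 / 2 : ℝ) ∈ Set.Ici (0 : ℝ) := by norm_num
  have h := (Real.strictConcaveOn_rpow h0 h1).2 m1 m2 (by norm_num) (by norm_num : (0 : ℝ) < 1 / 2)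
    (by norm_num : (0 : ℝ) < 1 / 2) (by norm_num)
  simp only [smul_eq_mul] at h
  have h2 : (1 / 2 * (1 / 2) + 1 / 2 * (3 / 2) : ℝ) = 1 := by norm_num
  rw [h2, Real.one_rpow] at h
  linarith

theorem t_EXPt : S_EXPt := by
  intro θ ε h0 h1 hε0 hε1 hε
  have hc : ∀ c : ℝ, 0 < c → Tendsto (fun η : ℝ => (c * (1 + η)) ^ θ) (𝓝[>] 0) (𝓝 (c ^ θ)) := by
    intro c hc
    have h2 : ContinuousAt (fun η : ℝ => (c * (1 + η)) ^ θ) 0 := by
      refine ContinuousAt.rpow_const ?_ (Or.inr h0.le)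
      fun_prop
    have h3 := h2.tendsto
    simp only [add_zero, mul_one] at h3
    exact h3.mono_left nhdsWithin_le_nhds
  have e1 : ∀ᶠ η : ℝ in 𝓝[>] 0, (1 / 2 * (1 + η)) ^ θ + (3 / 2 * (1 + η)) ^ θ < 2 :=
    ((hc (1 / 2) (by norm_num)).add (hc (3 / 2) (by norm_num))).eventually_lt_const (half_add h0 h1)
  have hle : (1 - ε) * (1 / 2 : ℝ) ^ θ < 1 := by
    have h2 : (1 / 2 : ℝ) ^ θ ≤ (3 / 2 : ℝ) ^ θ :=
      Real.rpow_le_rpow (by norm_num) (by norm_num) h0.le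
    have h3 := mul_le_mul_of_nonneg_left h2 (by linarith : (0 : ℝ) ≤ 1 - ε)
    linarith
  have e2 : ∀ᶠ η : ℝ in 𝓝[>] 0, (1 - ε) * (1 / 2 * (1 + η)) ^ θ < 1 :=
    ((hc (1 / 2) (by norm_num)).const_mul (1 - ε)).eventually_lt_const hle
  have e3 : ∀ᶠ η : ℝ in 𝓝[>] 0, (1 - ε) * (3 / 2 * (1 + η)) ^ θ < 1 :=
    ((hc (3 / 2) (by norm_num)).const_mul (1 - ε)).eventually_lt_const hε
  have e4 : ∀ᶠ η : ℝ in 𝓝[>] 0, 0 < η := eventually_mem_nhdsWithin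
  obtain ⟨η, g1, g2, g3, g4⟩ := (e1.and (e2.and (e3.and e4))).exists
  have f0 : fac 2 (mq 3) η 0 = 1 / 2 * (1 + η) := by
    unfold fac mq
    norm_num
  have f1 : fac 2 (mq 3) η 1 = 3 / 2 * (1 + η) := by
    unfold fac mq
    norm_num
  refine ⟨η, g4, ?_, ?_⟩
  · rw [sum_range_succ, sum_range_one, f0, f1]
    exact g1
  · intro j hj
    rw [mem_range] at hj
    interval_cases j
    · rw [f0]
      exact g2
    · rw [f1]
      exact g3

end Pool.Agent.U8.EE
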